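import Pool.Agent.Q152.QT.Stm

/-! Project QT, job QT6: the number of the even tuples. -/

set_option autoImplicit false

namespace Pool.Agent.Q31.QT

open Finset Pool.Agent.Q152.QT

/-- the sign of `a` for the choice `T` -/
noncomputable def sg (T : Finset ℕ) (a : ℕ) : ℝ := if a ∈ T then -1 else 1

/-- the mean of the `k`-th power of the sum of independent signs indexed by `A` -/
noncomputable def M (k : ℕ) (A : Finset ℕ) : ℝ :=
  (∑ T ∈ A.powerset, ((A.card : ℝ) - 2 * T.card) ^ k) / 2 ^ A.card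

theorem sum_sg {A T : Finset ℕ} (hT : T ⊆ A) : ∑ a ∈ A, sg T a = (A.card : ℝ) - 2 * T.card := by
  unfold sg
  have h1 : ∀ a ∈ A, (if a ∈ T then (-1 : ℝ) else 1) = 1 - 2 * (if a ∈ T then 1 else 0) := by
    intro a _
    split_ifs <;> norm_num
  rw [sum_congr rfl h1, sum_sub_distrib, ← mul_sum, sum_const, nsmul_eq_mul, mul_one]
  have h2 : ∑ a ∈ A, (if a ∈ T then (1 : ℝ) else 0) = (T.card : ℝ) := by
    rw [← sum_filter, sum_const, nsmul_eq_mul, mul_one]
    congr 2
    ext a
    simp only [mem_filter]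
    exact ⟨fun h => h.2, fun h => ⟨hT h, h⟩⟩
  rw [h2]

/-- the multiplicity of the value `a` -/
def mu {k : ℕ} (n : Fin k → ℕ) (a : ℕ) : ℕ := (univ.filter (fun i => n i = a)).card

theorem prod_sg {k : ℕ} (n : Fin k → ℕ) (T : Finset ℕ) :
    ∏ i, sg T (n i) = ∏ a ∈ T, (-1 : ℝ) ^ mu n a := by
  unfold sg
  rw [← prod_filter, prod_const, prod_pow_eq_pow_sum]
  congr 1
  rw [card_eq_sum_card_fiberwise (f := n) (t := T)]
  · apply sum_congr rfl
    intro a ha
    unfold mu
    congr 1
    ext i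
    simp only [mem_filter, mem_univ, true_and]
    exact ⟨fun h => h.2, fun h => ⟨h ▸ ha, h⟩⟩
  · intro i hi
    have h : n i ∈ T := by simpa using hi
    exact h

theorem evenT_iff {k : ℕ} {A : Finset ℕ} {n : Fin k → ℕ} (hn : ∀ i, n i ∈ A) :
    EvenT n ↔ ∀ a ∈ A, Even (mu n a) := by
  have h : ∀ v, Nat.card {i : Fin k // n i = v} = mu n v := by
    intro v
    rw [Nat.card_eq_fintype_card, Fintype.card_subtype]
    rfl
  unfold EvenT
  simp only [h]
  refine ⟨fun h a _ => h a, fun h v => ?_⟩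
  by_cases hv : v ∈ A
  · exact h v hv
  · have : mu n v = 0 := by
      unfold mu
      rw [card_eq_zero, filter_eq_empty_iff]
      intro i _ hi
      exact hv (hi ▸ hn i)
    rw [this]
    exact Even.zero

theorem Ek_eq (k : ℕ) (A : Finset ℕ) : (Ek k A : ℝ) = M k A := by
  classical
  unfold M
  rw [eq_div_iff (by positivity)]
  have h1 : ∀ T ∈ A.powerset, ((A.card : ℝ) - 2 * T.card) ^ k =
      ∑ n ∈ Fintype.piFinset (fun _ : Fin k => A), ∏ a ∈ T, (-1 : ℝ) ^ mu n a := by
    intro T hT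
    rw [← sum_sg (mem_powerset.1 hT), sum_pow']
    apply sum_congr rfl
    intro n _
    exact prod_sg n T
  rw [sum_congr rfl h1, sum_comm]
  have h2 : ∀ n ∈ Fintype.piFinset (fun _ : Fin k => A),
      ∑ T ∈ A.powerset, ∏ a ∈ T, (-1 : ℝ) ^ mu n a = if EvenT n then 2 ^ A.card else 0 := by
    intro n hn
    rw [← prod_one_add]
    have hn' : ∀ i, n i ∈ A := Fintype.mem_piFinset.1 hn
    split_ifs with he
    · rw [evenT_iff hn'] at he
      rw [prod_congr rfl (g := fun _ => (2 : ℝ)), prod_const]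
      intro a ha
      rw [(he a ha).neg_one_pow]
      norm_num
    · rw [evenT_iff hn'] at he
      push Not at he
      obtain ⟨a, ha, hodd⟩ := he
      apply prod_eq_zero ha
      rw [Nat.not_even_iff_odd] at hodd
      rw [hodd.neg_one_pow]
      norm_num
  rw [sum_congr rfl h2, ← sum_filter, sum_const, nsmul_eq_mul]
  unfold Ek
  congr!

theorem M_empty (k : ℕ) : M k ∅ = 0 ^ k := by
  unfold M
  simp

/-- the coefficient in the recursion -/
noncomputable def ec (j : ℕ) : ℝ := (1 + (-1) ^ j) / 2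

theorem M_insert (k : ℕ) {A : Finset ℕ} {a : ℕ} (ha : a ∉ A) :
    M k (insert a A) = ∑ j ∈ range (k + 1), (k.choose j : ℝ) * ec (k - j) * M j A := by
  unfold M
  rw [sum_powerset_insert ha, card_insert_of_notMem ha, ← sum_add_distrib]
  have h1 : ∀ T ∈ A.powerset, (((A.card + 1 : ℕ) : ℝ) - 2 * T.card) ^ k +
      (((A.card + 1 : ℕ) : ℝ) - 2 * (insert a T).card) ^ k =
      ∑ j ∈ range (k + 1), ((A.card : ℝ) - 2 * T.card) ^ j * (2 * ((k.choose j : ℝ) * ec (k - j))) := by
    intro T hT
    have hT' : a ∉ T := fun h => ha (mem_powerset.1 hT h)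
    rw [card_insert_of_notMem hT']
    have e1 : (((A.card + 1 : ℕ) : ℝ) - 2 * T.card) = ((A.card : ℝ) - 2 * T.card) + 1 := by
      push_cast; ring
    have e2 : (((A.card + 1 : ℕ) : ℝ) - 2 * (T.card + 1 : ℕ)) = ((A.card : ℝ) - 2 * T.card) + (-1) := by
      push_cast; ring
    rw [e1, e2, add_pow, add_pow, ← sum_add_distrib]
    apply sum_congr rfl
    intro j _
    unfold ec
    rw [one_pow]
    ring
  rw [sum_congr rfl h1, sum_comm]
  simp only [← sum_mul]
  rw [sum_div]
  apply sum_congr rfl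
  intro j _
  rw [pow_succ]
  field_simp

theorem M_zero (A : Finset ℕ) : M 0 A = 1 := by
  unfold M
  simp

theorem ec_odd {j : ℕ} (h : Odd j) : ec j = 0 := by
  unfold ec
  rw [h.neg_one_pow]
  norm_num

theorem ec_even {j : ℕ} (h : Even j) : ec j = 1 := by
  unfold ec
  rw [h.neg_one_pow]
  norm_num

theorem M_odd {k : ℕ} (hk : Odd k) (A : Finset ℕ) : M k A = 0 := by
  induction A using Finset.induction_on generalizing k with
  | empty =>
    rw [M_empty, zero_pow (by rintro rfl; simp at hk)]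
  | insert a A ha ih =>
    rw [M_insert k ha]
    apply sum_eq_zero
    intro j hj
    have hj' : j ≤ k := by
      rw [mem_range] at hj
      omega
    rcases Nat.even_or_odd j with h | h
    · rw [ec_odd (by
        rw [Nat.odd_sub hj']
        simp [hk, h])]
      ring
    · rw [ih h]
      ring

/-- elementary: the second difference of a power -/
theorem pow_diff (t : ℕ) : ∃ E : ℝ, 0 ≤ E ∧ ∀ x : ℝ, 0 ≤ x →
    0 ≤ (x + 1) ^ (t + 2) - x ^ (t + 2) - (t + 2) * x ^ (t + 1) ∧
    (x + 1) ^ (t + 2) - x ^ (t + 2) - (t + 2) * x ^ (t + 1) ≤ E * (x + 1) ^ t := by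
  induction t with
  | zero =>
    refine ⟨1, zero_le_one, fun x hx => ?_⟩
    have : (x + 1) ^ (0 + 2) - x ^ (0 + 2) - ((0 : ℕ) + 2) * x ^ (0 + 1) = 1 := by
      push_cast
      ring
    rw [this]
    norm_num
  | succ t ih =>
    obtain ⟨E, hE, h⟩ := ih
    refine ⟨E + (t + 2), by positivity, fun x hx => ?_⟩
    obtain ⟨h1, h2⟩ := h x hx
    have e : (x + 1) ^ (t + 1 + 2) - x ^ (t + 1 + 2) - ((t + 1 : ℕ) + 2) * x ^ (t + 1 + 1) =
        (x + 1) * ((x + 1) ^ (t + 2) - x ^ (t + 2) - (t + 2) * x ^ (t + 1)) +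
          (t + 2) * x ^ (t + 1) := by
      push_cast
      ring
    rw [e]
    constructor
    · have : 0 ≤ x ^ (t + 1) := by positivity
      positivity
    · have h3 : (x + 1) * ((x + 1) ^ (t + 2) - x ^ (t + 2) - (t + 2) * x ^ (t + 1)) ≤
          (x + 1) * (E * (x + 1) ^ t) := mul_le_mul_of_nonneg_left h2 (by linarith)
      have h4 : x ^ (t + 1) ≤ (x + 1) ^ (t + 1) := pow_le_pow_left₀ hx (by linarith) _
      have h5 : ((t : ℝ) + 2) * x ^ (t + 1) ≤ (t + 2) * (x + 1) ^ (t + 1) :=
        mul_le_mul_of_nonneg_left h4 (by positivity)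
      calc _ ≤ (x + 1) * (E * (x + 1) ^ t) + (t + 2) * (x + 1) ^ (t + 1) := add_le_add h3 h5
        _ = _ := by ring

/-- the double factorials -/
noncomputable def cc (m : ℕ) : ℝ := ((2 * m - 1).doubleFactorial : ℕ)

theorem cc_succ (t : ℕ) : cc (t + 2) = (2 * t + 3) * cc (t + 1) := by
  unfold cc
  have e1 : 2 * (t + 2) - 1 = (2 * t + 1) + 2 := by omega
  have e2 : 2 * (t + 1) - 1 = 2 * t + 1 := by omega
  rw [e1, e2, Nat.doubleFactorial_add_two]
  push_cast
  ring

theorem choose_eq (t : ℕ) : ((Nat.choose (2 * (t + 2)) (2 * (t + 1)) : ℕ) : ℝ) =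
    (t + 2) * (2 * t + 3) := by
  have h1 : Nat.choose (2 * (t + 2)) (2 * (t + 1)) = Nat.choose (2 * (t + 2)) 2 := by
    rw [← Nat.choose_symm (by omega)]
    congr 1
    omega
  rw [h1, Nat.cast_choose_two]
  push_cast
  ring

/-- the asymptotic statement for the exponent `2 (t + 1)` -/
def Qs (t : ℕ) : Prop := ∃ C : ℝ, 0 ≤ C ∧ ∀ A : Finset ℕ,
  |M (2 * (t + 1)) A - cc (t + 1) * (A.card : ℝ) ^ (t + 1)| ≤ C * (A.card : ℝ) ^ t

theorem M_low (t : ℕ) (h : ∀ i < t, Qs i) (j : ℕ) (hj : j ≤ 2 * t + 1) :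
    ∃ B : ℝ, 0 ≤ B ∧ ∀ A : Finset ℕ, |M j A| ≤ B * ((A.card : ℝ) + 1) ^ t := by
  rcases Nat.even_or_odd j with he | ho
  · obtain ⟨i, rfl⟩ := he
    rcases i with _ | i
    · refine ⟨1, zero_le_one, fun A => ?_⟩
      have : M (0 + 0) A = 1 := M_zero A
      rw [this, abs_one, one_mul]
      apply one_le_pow₀
      have : (0 : ℝ) ≤ A.card := Nat.cast_nonneg _
      linarith
    · obtain ⟨C, hC, hb⟩ := h i (by omega)
      refine ⟨|cc (i + 1)| + C, by positivity, fun A => ?_⟩
      have e : i + 1 + (i + 1) = 2 * (i + 1) := by ring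
      rw [e]
      have h1 := hb A
      have hn : (0 : ℝ) ≤ A.card := Nat.cast_nonneg _
      have h2 : (A.card : ℝ) ^ (i + 1) ≤ ((A.card : ℝ) + 1) ^ t :=
        (pow_le_pow_left₀ hn (by linarith) _).trans (pow_le_pow_right₀ (by linarith) (by omega))
      have h3 : (A.card : ℝ) ^ i ≤ ((A.card : ℝ) + 1) ^ t :=
        (pow_le_pow_left₀ hn (by linarith) _).trans (pow_le_pow_right₀ (by linarith) (by omega))
      calc |M (2 * (i + 1)) A| = |(M (2 * (i + 1)) A - cc (i + 1) * (A.card : ℝ) ^ (i + 1)) +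
            cc (i + 1) * (A.card : ℝ) ^ (i + 1)| := by congr 1; ring
        _ ≤ |M (2 * (i + 1)) A - cc (i + 1) * (A.card : ℝ) ^ (i + 1)| +
            |cc (i + 1) * (A.card : ℝ) ^ (i + 1)| := abs_add_le _ _
        _ ≤ C * (A.card : ℝ) ^ i + |cc (i + 1)| * (A.card : ℝ) ^ (i + 1) := by
            rw [abs_mul, abs_of_nonneg (pow_nonneg hn (i + 1))]
            linarith
        _ ≤ C * ((A.card : ℝ) + 1) ^ t + |cc (i + 1)| * ((A.card : ℝ) + 1) ^ t :=
            add_le_add (mul_le_mul_of_nonneg_left h3 hC)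
              (mul_le_mul_of_nonneg_left h2 (abs_nonneg _))
        _ = _ := by ring
  · refine ⟨0, le_rfl, fun A => ?_⟩
    rw [M_odd ho]
    simp

theorem Qs_all (t : ℕ) : Qs t := by
  induction t using Nat.strong_induction_on with
  | _ t ih =>
    rcases t with _ | t
    · refine ⟨0, le_rfl, fun A => ?_⟩
      have h : M 2 A = A.card := by
        induction A using Finset.induction_on with
        | empty => rw [M_empty]; simp
        | insert a A ha ihA =>
          rw [M_insert 2 ha, card_insert_of_notMem ha, sum_range_succ, sum_range_succ,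
            sum_range_succ, sum_range_zero, M_zero, M_odd odd_one, ihA]
          have e2 : ec (2 - 0) = 1 := ec_even (by decide)
          have e0 : ec (2 - 2) = 1 := ec_even (by decide)
          rw [e2, e0]
          push_cast
          simp
          ring
      have hc : cc (0 + 1) = 1 := by
        unfold cc
        simp [Nat.doubleFactorial]
      have e : 2 * (0 + 1) = 2 := rfl
      rw [e, h, hc]
      simp
    · -- the step
      obtain ⟨C₁, hC₁, hQ⟩ := ih t (by omega)
      obtain ⟨E, hE, hdiff⟩ := pow_diff t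
      choose B hB hMB using fun j : Fin (2 * (t + 1)) =>
        M_low t (fun i hi => ih i (by omega)) j (by have := j.2; omega)
      set C₂ : ℝ := ∑ j : Fin (2 * (t + 1)), ((2 * (t + 2)).choose j : ℝ) * B j with hC₂
      have hC₂0 : 0 ≤ C₂ := sum_nonneg fun j _ => mul_nonneg (Nat.cast_nonneg _) (hB j)
      set CH : ℝ := (t + 2) * (2 * t + 3) with hCH
      set C : ℝ := CH * C₁ + C₂ + |cc (t + 2)| * E with hC
      have hC0 : 0 ≤ C := by positivity
      refine ⟨C, hC0, fun A => ?_⟩
      have hstep : ∀ (A : Finset ℕ) (a : ℕ), a ∉ A →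
          |(M (2 * (t + 2)) (insert a A) - cc (t + 2) * ((A.card : ℝ) + 1) ^ (t + 2)) -
            (M (2 * (t + 2)) A - cc (t + 2) * (A.card : ℝ) ^ (t + 2))| ≤
            C * ((A.card : ℝ) + 1) ^ t := by
        intro A a ha
        have hn : (0 : ℝ) ≤ A.card := Nat.cast_nonneg _
        have hrec : M (2 * (t + 2)) (insert a A) =
            (∑ j ∈ range (2 * (t + 1)), ((2 * (t + 2)).choose j : ℝ) *
              ec (2 * (t + 2) - j) * M j A) + CH * M (2 * (t + 1)) A + M (2 * (t + 2)) A := by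
          have e1 : 2 * (t + 2) + 1 = 2 * (t + 1) + 1 + 1 + 1 := by ring
          rw [M_insert _ ha, e1, sum_range_succ, sum_range_succ, sum_range_succ]
          have e2 : 2 * (t + 1) + 1 + 1 = 2 * (t + 2) := by ring
          rw [e2, M_odd (k := 2 * (t + 1) + 1) ⟨t + 1, rfl⟩, mul_zero, add_zero, Nat.choose_self,
            Nat.sub_self, choose_eq]
          have e3 : ec (2 * (t + 2) - 2 * (t + 1)) = 1 := by
            have : 2 * (t + 2) - 2 * (t + 1) = 2 := by omega
            rw [this]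
            exact ec_even (by decide)
          have e4 : ec 0 = 1 := ec_even (by decide)
          rw [e3, e4]
          push_cast
          ring
        have hrest : |∑ j ∈ range (2 * (t + 1)), ((2 * (t + 2)).choose j : ℝ) *
              ec (2 * (t + 2) - j) * M j A| ≤ C₂ * ((A.card : ℝ) + 1) ^ t := by
          rw [← Fin.sum_univ_eq_sum_range (fun j => ((2 * (t + 2)).choose j : ℝ) *
              ec (2 * (t + 2) - j) * M j A) (2 * (t + 1)), hC₂, sum_mul]
          refine (abs_sum_le_sum_abs _ _).trans (sum_le_sum fun j _ => ?_)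
          rw [abs_mul, abs_mul, Nat.abs_cast]
          have hec : |ec (2 * (t + 2) - (j : ℕ))| ≤ 1 := by
            rcases Nat.even_or_odd (2 * (t + 2) - (j : ℕ)) with h | h
            · rw [ec_even h]; simp
            · rw [ec_odd h]; simp
          calc ((2 * (t + 2)).choose j : ℝ) * |ec (2 * (t + 2) - (j : ℕ))| * |M j A|
              ≤ ((2 * (t + 2)).choose j : ℝ) * 1 * (B j * ((A.card : ℝ) + 1) ^ t) := by
                apply mul_le_mul _ (hMB j A) (abs_nonneg _) (by positivity)
                exact mul_le_mul_of_nonneg_left hec (Nat.cast_nonneg _)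
            _ = _ := by ring
        have hcc : CH * cc (t + 1) = (t + 2) * cc (t + 2) := by
          rw [cc_succ, hCH]
          ring
        obtain ⟨hd1, hd2⟩ := hdiff (A.card : ℝ) hn
        have hmid := hQ A
        have hpow : (A.card : ℝ) ^ t ≤ ((A.card : ℝ) + 1) ^ t :=
          pow_le_pow_left₀ hn (by linarith) _
        have hCH0 : 0 ≤ CH := by positivity
        have e : (M (2 * (t + 2)) (insert a A) - cc (t + 2) * ((A.card : ℝ) + 1) ^ (t + 2)) -
            (M (2 * (t + 2)) A - cc (t + 2) * (A.card : ℝ) ^ (t + 2)) =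
            CH * (M (2 * (t + 1)) A - cc (t + 1) * (A.card : ℝ) ^ (t + 1)) +
            (∑ j ∈ range (2 * (t + 1)), ((2 * (t + 2)).choose j : ℝ) *
              ec (2 * (t + 2) - j) * M j A) -
            cc (t + 2) * (((A.card : ℝ) + 1) ^ (t + 2) - (A.card : ℝ) ^ (t + 2) -
              (t + 2) * (A.card : ℝ) ^ (t + 1)) := by
          rw [hrec]
          linear_combination ((A.card : ℝ) ^ (t + 1)) * hcc
        rw [e]
        have t1 : |CH * (M (2 * (t + 1)) A - cc (t + 1) * (A.card : ℝ) ^ (t + 1))| ≤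
            CH * C₁ * ((A.card : ℝ) + 1) ^ t := by
          rw [abs_mul, abs_of_nonneg hCH0]
          have h9 := mul_le_mul_of_nonneg_left
            (hmid.trans (mul_le_mul_of_nonneg_left hpow hC₁)) hCH0
          linarith [h9]
        have t3 : |cc (t + 2) * (((A.card : ℝ) + 1) ^ (t + 2) - (A.card : ℝ) ^ (t + 2) -
              (t + 2) * (A.card : ℝ) ^ (t + 1))| ≤ |cc (t + 2)| * E * ((A.card : ℝ) + 1) ^ t := by
          rw [abs_mul, abs_of_nonneg hd1, mul_assoc]
          exact mul_le_mul_of_nonneg_left hd2 (abs_nonneg _)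
        calc _ ≤ |CH * (M (2 * (t + 1)) A - cc (t + 1) * (A.card : ℝ) ^ (t + 1)) +
            (∑ j ∈ range (2 * (t + 1)), ((2 * (t + 2)).choose j : ℝ) *
              ec (2 * (t + 2) - j) * M j A)| + _ := abs_sub _ _
          _ ≤ (|CH * (M (2 * (t + 1)) A - cc (t + 1) * (A.card : ℝ) ^ (t + 1))| +
            |∑ j ∈ range (2 * (t + 1)), ((2 * (t + 2)).choose j : ℝ) *
              ec (2 * (t + 2) - j) * M j A|) + _ := add_le_add (abs_add_le _ _) le_rfl
          _ ≤ (CH * C₁ * ((A.card : ℝ) + 1) ^ t + C₂ * ((A.card : ℝ) + 1) ^ t) +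
              |cc (t + 2)| * E * ((A.card : ℝ) + 1) ^ t := add_le_add (add_le_add t1 hrest) t3
          _ = C * ((A.card : ℝ) + 1) ^ t := by rw [hC]; ring
      -- summation
      show |M (2 * (t + 2)) A - cc (t + 2) * (A.card : ℝ) ^ (t + 2)| ≤ C * (A.card : ℝ) ^ (t + 1)
      induction A using Finset.induction_on with
      | empty =>
        rw [M_empty]
        simp
      | insert a A ha ihA =>
        rw [card_insert_of_notMem ha]
        push_cast
        have hn : (0 : ℝ) ≤ A.card := Nat.cast_nonneg _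
        have h1 := hstep A a ha
        have hpow : (A.card : ℝ) ^ t ≤ ((A.card : ℝ) + 1) ^ t :=
          pow_le_pow_left₀ hn (by linarith) _
        calc |M (2 * (t + 2)) (insert a A) - cc (t + 2) * ((A.card : ℝ) + 1) ^ (t + 2)|
            = |((M (2 * (t + 2)) (insert a A) - cc (t + 2) * ((A.card : ℝ) + 1) ^ (t + 2)) -
            (M (2 * (t + 2)) A - cc (t + 2) * (A.card : ℝ) ^ (t + 2))) +
            (M (2 * (t + 2)) A - cc (t + 2) * (A.card : ℝ) ^ (t + 2))| := by congr 1; ring
          _ ≤ C * ((A.card : ℝ) + 1) ^ t + C * (A.card : ℝ) ^ (t + 1) :=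
              (abs_add_le _ _).trans (add_le_add h1 ihA)
          _ = C * (((A.card : ℝ) + 1) ^ t + A.card * (A.card : ℝ) ^ t) := by ring
          _ ≤ C * (((A.card : ℝ) + 1) ^ t + A.card * ((A.card : ℝ) + 1) ^ t) := by
              apply mul_le_mul_of_nonneg_left _ hC0
              apply add_le_add le_rfl
              exact mul_le_mul_of_nonneg_left hpow hn
          _ = C * ((A.card : ℝ) + 1) ^ (t + 1) := by ring

theorem t_Ek : S_Ek := by
  intro k
  rcases Nat.even_or_odd k with he | ho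
  · obtain ⟨m, rfl⟩ := he
    rcases m with _ | t
    · refine ⟨0, le_rfl, fun A => ?_⟩
      rw [Ek_eq]
      have h1 : M (0 + 0) A = 1 := M_zero A
      rw [h1]
      simp [gm]
    · obtain ⟨C, hC, h⟩ := Qs_all t
      refine ⟨C, hC, fun A => ?_⟩
      have hn : (0 : ℝ) ≤ A.card := Nat.cast_nonneg _
      have e : t + 1 + (t + 1) = 2 * (t + 1) := by ring
      have hg : (gm (2 * (t + 1)) : ℝ) = cc (t + 1) := by
        unfold gm cc
        rw [if_pos (even_two_mul _)]
      have hs : √(A.card : ℝ) ^ (2 * (t + 1)) = (A.card : ℝ) ^ (t + 1) := by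
        rw [pow_mul, Real.sq_sqrt hn]
      have e' : 2 * (t + 1) - 1 = 2 * t + 1 := by omega
      rw [Ek_eq, e, hg, hs, e']
      rcases Nat.eq_zero_or_pos A.card with h0 | h0
      · rw [card_eq_zero] at h0
        subst h0
        rw [M_empty]
        simp
      · refine (h A).trans ?_
        apply mul_le_mul_of_nonneg_left _ hC
        have h1 : (1 : ℝ) ≤ √(A.card : ℝ) := by
          rw [Real.one_le_sqrt]
          exact_mod_cast h0
        calc (A.card : ℝ) ^ t = √(A.card : ℝ) ^ (2 * t) := by rw [pow_mul, Real.sq_sqrt hn]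
          _ ≤ √(A.card : ℝ) ^ (2 * t + 1) := pow_le_pow_right₀ h1 (by omega)
  · refine ⟨0, le_rfl, fun A => ?_⟩
    rw [Ek_eq, M_odd ho]
    have : gm k = 0 := by
      unfold gm
      rw [if_neg (Nat.not_even_iff_odd.2 ho)]
    rw [this]
    simp

end Pool.Agent.Q31.QT
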