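import Pool.Agent.Q152.QT.Stm
import Pool.Agent.H358R2.Asym

/-! Project QT, job QT3a: the number of the tuples with a square as product. -/

set_option autoImplicit false

namespace Pool.Agent.Q31.QT

open Finset Pool.Agent.Q152.QT

theorem mem_SqT {ι : Type} [Fintype ι] {x : ι → ℕ} {h : ℕ} {n : ι → ℕ} : n ∈ SqT x h ↔
    (∀ i, n i ∈ Ioc (x i) (x i + h)) ∧ (∀ i, Squarefree (n i)) ∧ IsSquare (∏ i, n i) := by
  unfold SqT
  simp only [mem_filter, Fintype.mem_piFinset]

/-- the maximum of the weights -/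
theorem max_weight (k : ℕ) (a : Fin k → ℝ) (h N : ℝ) (hh : 1 ≤ h) (hN : h ≤ N)
    (ha : ∀ j, 1 ≤ a j) (ha' : ∀ j, a j ≤ 3 * N) (hprod : √N ^ k ≤ ∏ j, a j) :
    ∏ j, (h / a j + 1) ≤ 6 ^ k * √h ^ k := by
  classical
  set S : Finset (Fin k) := univ.filter (fun j => a j ≤ h) with hS
  set s : ℕ := S.card with hs
  have hsk : s ≤ k := by
    have := card_le_univ S
    rwa [Fintype.card_fin] at this
  have h0 : 0 < h := by linarith
  have hN0 : 0 < N := by linarith
  have hpos : ∀ j, 0 < a j := fun j => by linarith [ha j]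
  have e1 : ∏ j, (h / a j + 1) ≤ ∏ j, (2 * (if a j ≤ h then h / a j else 1)) := by
    apply prod_le_prod
    · intro j _
      have := hpos j
      positivity
    · intro j _
      split_ifs with hj
      · have : 1 ≤ h / a j := by rw [one_le_div (hpos j)]; exact hj
        linarith
      · have : h / a j ≤ 1 := by rw [div_le_one (hpos j)]; linarith
        linarith
  have e2 : ∏ j, (2 * (if a j ≤ h then h / a j else 1)) = 2 ^ k * (h ^ s / ∏ j ∈ S, a j) := by
    rw [prod_mul_distrib, prod_const, card_univ, Fintype.card_fin, ← prod_filter, prod_div_distrib,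
      prod_const]
  set P : ℝ := ∏ j ∈ S, a j with hP
  set Q : ℝ := ∏ j ∈ Sᶜ, a j with hQ
  have hPQ : P * Q = ∏ j, a j := prod_mul_prod_compl S _
  have hP1 : 1 ≤ P := by
    rw [hP]
    calc (1 : ℝ) = ∏ j ∈ S, 1 := by simp
      _ ≤ ∏ j ∈ S, a j := prod_le_prod (fun _ _ => zero_le_one) (fun j _ => ha j)
  have hQ0 : 0 < Q := prod_pos fun j _ => hpos j
  have hQ3 : Q ≤ (3 * N) ^ (k - s) := by
    calc Q ≤ ∏ j ∈ Sᶜ, (3 * N) := prod_le_prod (fun j _ => (hpos j).le) (fun j _ => ha' j)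
      _ = (3 * N) ^ (k - s) := by rw [prod_const, card_compl, Fintype.card_fin]
  have hsh : 0 ≤ √h := Real.sqrt_nonneg _
  have hsN : 0 ≤ √N := Real.sqrt_nonneg _
  have hsh1 : 1 ≤ √h := by rw [Real.one_le_sqrt]; exact hh
  have hshN : √h ≤ √N := Real.sqrt_le_sqrt hN
  have hhs : h ^ s = √h ^ (2 * s) := by rw [pow_mul, Real.sq_sqrt h0.le]
  have hNs : N ^ (k - s) = √N ^ (2 * (k - s)) := by rw [pow_mul, Real.sq_sqrt hN0.le]
  have e3 : h ^ s / P ≤ 3 ^ k * √h ^ k := by
    rw [div_le_iff₀ (by linarith)]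
    by_cases hc : 2 * s ≤ k
    · have h1 : h ^ s ≤ √h ^ k := by
        rw [hhs]
        exact pow_le_pow_right₀ hsh1 hc
      have h2 : (1 : ℝ) ≤ 3 ^ k := one_le_pow₀ (by norm_num)
      have h3 : 0 ≤ √h ^ k := by positivity
      calc h ^ s ≤ √h ^ k := h1
        _ ≤ 3 ^ k * √h ^ k := by nlinarith
        _ = 3 ^ k * √h ^ k * 1 := by ring
        _ ≤ 3 ^ k * √h ^ k * P := mul_le_mul_of_nonneg_left hP1 (by positivity)
    · have hc' : k < 2 * s := by omega
      refine le_of_mul_le_mul_right ?_ hQ0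
      calc h ^ s * Q ≤ h ^ s * (3 * N) ^ (k - s) := mul_le_mul_of_nonneg_left hQ3 (by positivity)
        _ = 3 ^ (k - s) * (√h ^ (2 * s) * √N ^ (2 * (k - s))) := by
            rw [mul_pow, hNs, hhs]
            ring
        _ = 3 ^ (k - s) * (√h ^ k * √h ^ (2 * s - k) * √N ^ (2 * (k - s))) := by
            rw [← pow_add]
            congr 4
            omega
        _ ≤ 3 ^ k * (√h ^ k * √N ^ (2 * s - k) * √N ^ (2 * (k - s))) := by
            apply mul_le_mul
            · exact pow_le_pow_right₀ (by norm_num) (by omega)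
            · apply mul_le_mul_of_nonneg_right _ (by positivity)
              apply mul_le_mul_of_nonneg_left _ (by positivity)
              exact pow_le_pow_left₀ hsh hshN _
            · positivity
            · positivity
        _ = 3 ^ k * √h ^ k * √N ^ k := by
            have : k = (2 * s - k) + 2 * (k - s) := by omega
            have h5 : √N ^ k = √N ^ (2 * s - k) * √N ^ (2 * (k - s)) := by
              rw [← pow_add]
              congr 1
            rw [h5]
            ring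
        _ ≤ 3 ^ k * √h ^ k * ∏ j, a j := mul_le_mul_of_nonneg_left hprod (by positivity)
        _ = 3 ^ k * √h ^ k * P * Q := by rw [← hPQ]; ring
  calc ∏ j, (h / a j + 1) ≤ 2 ^ k * (h ^ s / P) := e1.trans e2.le
    _ ≤ 2 ^ k * (3 ^ k * √h ^ k) := mul_le_mul_of_nonneg_left e3 (by positivity)
    _ = 6 ^ k * √h ^ k := by
        rw [← mul_assoc, ← mul_pow]
        norm_num

/-- the number of the tuples, for `Fin k` -/
theorem triv_fin (h1 : S_Gcd) (h2 : S_Wt) (k : ℕ) (δ : ℝ) (hδ : 0 < δ) : ∃ C : ℝ, 0 < C ∧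
    ∀ (N h : ℕ) (x : Fin k → ℕ), 1 ≤ h → h ≤ N → (∀ i, x i ∈ Ico N (2 * N)) →
      ((SqT x h).card : ℝ) ≤ C * √(h : ℝ) ^ k * (N : ℝ) ^ δ := by
  classical
  obtain ⟨C₀, hC₀, hdiv⟩ := Pool.Agent.H358R2.div_bound
    (show (0 : ℝ) < δ / ((k : ℝ) ^ 2 + 1) by positivity)
  set δ' : ℝ := δ / ((k : ℝ) ^ 2 + 1) with hδ'
  refine ⟨6 ^ k * (C₀ ^ k * 3 ^ δ), by positivity, fun N h x hh hN hx => ?_⟩
  have hN1 : 1 ≤ N := hh.trans hN
  have hNR : (1 : ℝ) ≤ N := by exact_mod_cast hN1
  have hδ'0 : 0 < δ' := by rw [hδ']; positivity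
  set D : ℝ := C₀ * (3 * (N : ℝ)) ^ ((k : ℝ) * δ') with hD
  have hrange : ∀ n ∈ Fintype.piFinset (fun i => Ioc (x i) (x i + h)), ∀ i,
      N < n i ∧ n i ≤ 3 * N := by
    intro n hn i
    have h3 := mem_Ioc.1 (Fintype.mem_piFinset.1 hn i)
    have h4 := mem_Ico.1 (hx i)
    omega
  have hDb : ∀ n ∈ Fintype.piFinset (fun i => Ioc (x i) (x i + h)), ∀ j : Fin k,
      ((∏ i ∈ univ.filter (fun i => i < j), n i).divisors.card : ℝ) ≤ D := by
    intro n hn j
    set p : ℕ := ∏ i ∈ univ.filter (fun i => i < j), n i with hp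
    have hp0 : p ≠ 0 := by
      rw [hp, prod_ne_zero_iff]
      intro i _
      have := (hrange n hn i).1
      omega
    have hp3 : p ≤ (3 * N) ^ k := by
      calc p ≤ ∏ i ∈ univ.filter (fun i => i < j), (3 * N) :=
            prod_le_prod' fun i _ => (hrange n hn i).2
        _ = (3 * N) ^ (univ.filter (fun i => i < j)).card := prod_const _
        _ ≤ (3 * N) ^ k := by
            apply Nat.pow_le_pow_right (by omega)
            have := card_le_univ (univ.filter (fun i : Fin k => i < j))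
            rwa [Fintype.card_fin] at this
    have hp3R : (p : ℝ) ≤ (3 * (N : ℝ)) ^ k := by exact_mod_cast hp3
    refine (hdiv p hp0).trans ?_
    rw [hD]
    apply mul_le_mul_of_nonneg_left _ (by linarith)
    calc (p : ℝ) ^ δ' ≤ ((3 * (N : ℝ)) ^ k) ^ δ' :=
          Real.rpow_le_rpow (Nat.cast_nonneg _) hp3R hδ'0.le
      _ = (3 * (N : ℝ)) ^ ((k : ℝ) * δ') := by
          rw [← Real.rpow_natCast, ← Real.rpow_mul (by positivity)]
  have hW := h2 k x h D hh hDb
  -- the weight of one tuple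
  have hone : ∀ n ∈ SqT x h, (1 : ℝ) ≤ 6 ^ k * √(h : ℝ) ^ k *
      ∏ j, ((h : ℝ) / (Nat.gcd (n j) (∏ i ∈ univ.filter (fun i => i < j), n i) : ℕ) + 1)⁻¹ := by
    intro n hn
    rw [mem_SqT] at hn
    obtain ⟨hnp', hsq, hsquare⟩ := hn
    have hnp : n ∈ Fintype.piFinset (fun i => Ioc (x i) (x i + h)) :=
      Fintype.mem_piFinset.2 hnp'
    have hr := hrange n hnp
    set a : Fin k → ℝ := fun j =>
      ((Nat.gcd (n j) (∏ i ∈ univ.filter (fun i => i < j), n i) : ℕ) : ℝ) with ha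
    have hmax := max_weight k a h N (by exact_mod_cast hh) (by exact_mod_cast hN) ?_ ?_ ?_
    · have hpos : 0 < ∏ j, ((h : ℝ) / a j + 1) := by
        apply prod_pos
        intro j _
        have : 0 ≤ a j := Nat.cast_nonneg _
        positivity
      rw [prod_inv_distrib]
      rw [← div_eq_mul_inv, one_le_div hpos]
      exact hmax
    · intro j
      simp only [ha]
      have : 0 < Nat.gcd (n j) (∏ i ∈ univ.filter (fun i => i < j), n i) :=
        Nat.gcd_pos_of_pos_left _ (by have := (hr j).1; omega)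
      exact_mod_cast this
    · intro j
      simp only [ha]
      have h3 : Nat.gcd (n j) (∏ i ∈ univ.filter (fun i => i < j), n i) ≤ n j :=
        Nat.gcd_le_left _ (by have := (hr j).1; omega)
      have h4 := (hr j).2
      exact_mod_cast h3.trans h4
    · have h3 := h1 k n hsq hsquare
      have h4 : (N : ℝ) ^ k ≤ (∏ j, a j) ^ 2 := by
        have h5 : (N : ℕ) ^ k ≤ ∏ i, n i := by
          calc N ^ k = ∏ _i : Fin k, N := by simp
            _ ≤ ∏ i, n i := prod_le_prod' fun i _ => (hr i).1.le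
        have h6 : N ^ k ≤ (∏ j, Nat.gcd (n j) (∏ i ∈ univ.filter (fun i => i < j), n i)) ^ 2 :=
          h5.trans h3
        have h7 : ((N ^ k : ℕ) : ℝ) ≤
            (((∏ j, Nat.gcd (n j) (∏ i ∈ univ.filter (fun i => i < j), n i)) ^ 2 : ℕ) : ℝ) := by
          exact_mod_cast h6
        push_cast at h7
        exact h7
      have h8 : √(N : ℝ) ^ k = √((N : ℝ) ^ k) := by
        symm
        rw [Real.sqrt_eq_iff_mul_self_eq (by positivity) (by positivity), ← mul_pow,
          Real.mul_self_sqrt (by positivity)]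
      rw [h8]
      have h9 : 0 ≤ ∏ j, a j := prod_nonneg fun j _ => Nat.cast_nonneg _
      rw [Real.sqrt_le_left h9]
      exact h4
  have hsub : SqT x h ⊆ Fintype.piFinset (fun i => Ioc (x i) (x i + h)) := by
    intro n hn
    exact Fintype.mem_piFinset.2 (mem_SqT.1 hn).1
  calc ((SqT x h).card : ℝ) = ∑ n ∈ SqT x h, (1 : ℝ) := by simp
    _ ≤ ∑ n ∈ SqT x h, 6 ^ k * √(h : ℝ) ^ k *
      ∏ j, ((h : ℝ) / (Nat.gcd (n j) (∏ i ∈ univ.filter (fun i => i < j), n i) : ℕ) + 1)⁻¹ :=
        sum_le_sum hone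
    _ ≤ ∑ n ∈ Fintype.piFinset (fun i => Ioc (x i) (x i + h)), 6 ^ k * √(h : ℝ) ^ k *
      ∏ j, ((h : ℝ) / (Nat.gcd (n j) (∏ i ∈ univ.filter (fun i => i < j), n i) : ℕ) + 1)⁻¹ := by
        apply sum_le_sum_of_subset_of_nonneg hsub
        intro n _ _
        positivity
    _ = 6 ^ k * √(h : ℝ) ^ k * ∑ n ∈ Fintype.piFinset (fun i => Ioc (x i) (x i + h)),
      ∏ j, ((h : ℝ) / (Nat.gcd (n j) (∏ i ∈ univ.filter (fun i => i < j), n i) : ℕ) + 1)⁻¹ := by
        rw [mul_sum]
    _ ≤ 6 ^ k * √(h : ℝ) ^ k * D ^ k := mul_le_mul_of_nonneg_left hW (by positivity)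
    _ ≤ 6 ^ k * √(h : ℝ) ^ k * (C₀ ^ k * (3 ^ δ * (N : ℝ) ^ δ)) := by
        apply mul_le_mul_of_nonneg_left _ (by positivity)
        rw [hD, mul_pow]
        apply mul_le_mul_of_nonneg_left _ (by positivity)
        rw [← Real.mul_rpow (by norm_num) (by positivity), ← Real.rpow_natCast,
          ← Real.rpow_mul (by positivity)]
        apply Real.rpow_le_rpow_of_exponent_le (by linarith)
        rw [hδ']
        have h5 : (0 : ℝ) < (k : ℝ) ^ 2 + 1 := by positivity
        have h6 : (k : ℝ) * (δ / ((k : ℝ) ^ 2 + 1)) * k = δ * ((k : ℝ) ^ 2 / ((k : ℝ) ^ 2 + 1)) := by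
          field_simp
        rw [h6]
        have h7 : (k : ℝ) ^ 2 / ((k : ℝ) ^ 2 + 1) ≤ 1 := by
          rw [div_le_one h5]
          linarith
        calc δ * ((k : ℝ) ^ 2 / ((k : ℝ) ^ 2 + 1)) ≤ δ * 1 := mul_le_mul_of_nonneg_left h7 hδ.le
          _ = δ := mul_one _
    _ = _ := by ring

theorem t_Triv (h1 : S_Gcd) (h2 : S_Wt) : S_Triv := by
  classical
  intro ι _ δ hδ
  obtain ⟨C, hC, hb⟩ := triv_fin h1 h2 (Fintype.card ι) δ hδ
  refine ⟨C, hC, fun N h x hh hN hx => ?_⟩
  set e : ι ≃ Fin (Fintype.card ι) := Fintype.equivFin ι with he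
  refine le_trans ?_ (hb N h (x ∘ e.symm) hh hN (fun i => hx _))
  have : (SqT x h).card ≤ (SqT (x ∘ e.symm) h).card := by
    apply card_le_card_of_injOn (fun n => n ∘ e.symm)
    · intro n hn
      have hn' : n ∈ SqT x h := hn
      rw [mem_SqT] at hn'
      obtain ⟨a1, a2, a3⟩ := hn'
      have goal : n ∘ e.symm ∈ SqT (x ∘ e.symm) h := by
        rw [mem_SqT]
        refine ⟨fun i => a1 _, fun i => a2 _, ?_⟩
        have : ∏ i, (n ∘ e.symm) i = ∏ i, n i := Equiv.prod_comp e.symm n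
        rw [this]
        exact a3
      exact goal
    · intro n _ m _ hnm
      funext i
      have := congrFun hnm (e i)
      simpa using this
  exact_mod_cast this

end Pool.Agent.Q31.QT
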